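import Mathlib

/-!
# `E ⊗ ℂ` is a product of copies of `ℂ`
-/

set_option autoImplicit false

namespace Pool.Agent.X33.DP

open TensorProduct

lemma exists_split (E : Type) [Field E] [NumberField E] :
    ∃ (I : Type) (_ : Finite I) (_ : Nonempty I), Nonempty ((E ⊗[ℚ] ℂ) ≃+* (I → ℂ)) := by
  have h1 : Algebra.FormallyEtale ℚ E := Algebra.FormallyEtale.of_isSeparable ℚ E
  have h2 : Algebra.FormallyEtale ℂ (ℂ ⊗[ℚ] E) := inferInstance
  have h3 : Algebra.EssFiniteType ℂ (ℂ ⊗[ℚ] E) := inferInstance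
  have h4 : IsArtinianRing (ℂ ⊗[ℚ] E) := IsArtinianRing.of_finite ℂ _
  let f := Algebra.FormallyEtale.equivPiOfIsSepClosed ℂ (ℂ ⊗[ℚ] E)
  exact ⟨PrimeSpectrum (ℂ ⊗[ℚ] E), inferInstance, inferInstance,
    ⟨((Algebra.TensorProduct.comm ℚ E ℂ).toRingEquiv).trans f.toRingEquiv⟩⟩

end Pool.Agent.X33.DP
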