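import Mathlib

/-!
# Multiplicative functions of matrices over a product of algebraically closed fields
-/

set_option autoImplicit false
set_option linter.unusedSectionVars false

namespace Pool.Agent.X33.DP

open Matrix

section field

variable {K : Type} [Field K] [CharZero K] {n : Type} [Fintype n] [DecidableEq n]
  {G : Type} [CommMonoid G]

lemma mult_isUnit {R : Type} [CommRing R] (ρ : Matrix n n R →* G) {A B : Matrix n n R}
    (h : A * B = 1) : IsUnit (ρ A) :=
  IsUnit.of_mul_eq_one (ρ B) (by rw [← map_mul, h, map_one])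

/-- a multiplicative function of matrices is trivial on transvections -/
lemma mult_transvection (ρ : Matrix n n K →* G) {i j : n} (hij : i ≠ j) (c : K) :
    ρ (transvection i j c) = 1 := by
  have h1 : diagonal (Pi.mulSingle i (2 : K)) * transvection i j c =
      transvection i j c * transvection i j c * diagonal (Pi.mulSingle i (2 : K)) := by
    rw [transvection_mul_transvection_same i j hij]
    ext a b
    rw [diagonal_mul, mul_diagonal, transvection, transvection, Matrix.add_apply,
      Matrix.add_apply, single_apply, single_apply, one_apply]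
    by_cases ha : i = a
    · subst ha
      by_cases hb : j = b
      · subst hb
        simp [hij, hij.symm]
        ring
      · by_cases hab : i = b
        · subst hab
          simp [hb]
        · simp [hb, hab]
    · by_cases hab : a = b
      · subst hab
        simp [ha, Ne.symm ha]
      · simp [ha, hab]
  have h2 : IsUnit (ρ (transvection i j c)) := mult_isUnit ρ (B := transvection i j (-c)) (by
    rw [transvection_mul_transvection_same i j hij, add_neg_cancel, transvection_zero])
  have h3 : IsUnit (ρ (diagonal (Pi.mulSingle i (2 : K)))) :=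
    mult_isUnit ρ (B := diagonal (Pi.mulSingle i (2⁻¹ : K))) (by
      rw [diagonal_mul_diagonal]
      have h5 : (fun k => (Pi.mulSingle i (2 : K) : n → K) k * (Pi.mulSingle i (2⁻¹ : K) : n → K) k) =
          (1 : n → K) := by
        have h6 := Pi.mulSingle_mul (f := fun _ : n => K) i (2 : K) 2⁻¹
        rw [mul_inv_cancel₀ two_ne_zero, Pi.mulSingle_one] at h6
        exact h6.symm
      rw [h5]
      exact diagonal_one)
  have h4 := congrArg ρ h1
  rw [map_mul, map_mul, map_mul] at h4
  have h5 : ρ (transvection i j c) * (ρ (transvection i j c) * ρ (diagonal (Pi.mulSingle i (2 : K)))) =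
      1 * (ρ (transvection i j c) * ρ (diagonal (Pi.mulSingle i (2 : K)))) := by
    rw [← mul_assoc, ← h4, one_mul, mul_comm]
  exact (h2.mul h3).mul_right_cancel h5

/-- a multiplicative function of matrices is `1` on matrices of determinant `1` -/
theorem mult_det_one (ρ : Matrix n n K →* G) {A : Matrix n n K} (hA : A.det = 1) : ρ A = 1 := by
  refine diagonal_transvection_induction (fun A => ρ A = 1) A ?_ ?_ ?_
  · intro D hD
    rw [hA, det_diagonal] at hD
    cases isEmpty_or_nonempty n with
    | inl h =>
      rw [show diagonal D = (1 : Matrix n n K) from Subsingleton.elim _ _, map_one]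
    | inr h =>
      obtain ⟨i0⟩ := h
      let r : (n → K) →* G :=
        { toFun := fun D => ρ (diagonal D)
          map_one' := by
            rw [show diagonal (1 : n → K) = 1 from diagonal_one, map_one]
          map_mul' := fun D D' => by
            rw [← map_mul, diagonal_mul_diagonal]
            rfl }
      have hr : ∀ D, r D = ρ (diagonal D) := fun _ => rfl
      have hsw : ∀ i d, r (Pi.mulSingle i d) = r (Pi.mulSingle i0 d) := by
        intro i d
        have h1 : Matrix.swap K i i0 * diagonal (Pi.mulSingle i d) =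
            diagonal (Pi.mulSingle i0 d) * Matrix.swap K i i0 := by
          ext a b
          rw [mul_diagonal, diagonal_mul, Matrix.swap, Equiv.Perm.permMatrix, PEquiv.toMatrix_apply]
          by_cases hab : b ∈ (Equiv.swap i i0).toPEquiv a
          · rw [if_pos hab, one_mul, mul_one]
            have h5 : Equiv.swap i i0 a = b := by
              rw [Equiv.toPEquiv_apply, Option.mem_some_iff] at hab
              exact hab
            rw [← h5]
            by_cases ha : a = i0
            · rw [ha, Equiv.swap_apply_right, Pi.mulSingle_eq_same, Pi.mulSingle_eq_same]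
            · rw [Pi.mulSingle_eq_of_ne ha, Pi.mulSingle_eq_of_ne]
              intro h6
              exact ha (Equiv.injective (Equiv.swap i i0) (h6.trans (Equiv.swap_apply_right i i0).symm))
          · rw [if_neg hab, zero_mul, mul_zero]
        have h2 : IsUnit (ρ (Matrix.swap K i i0)) := mult_isUnit ρ (Matrix.swap_mul_self i i0)
        have h3 := congrArg ρ h1
        rw [map_mul, map_mul, mul_comm] at h3
        exact h2.mul_right_cancel h3
      rw [← hr, ← Finset.univ_prod_mulSingle D, map_prod]
      simp only [hsw]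
      let r0 : K →* G := r.comp (MonoidHom.mulSingle (fun _ : n => K) i0)
      have h4 : ∀ d, r (Pi.mulSingle i0 d) = r0 d := fun _ => rfl
      simp only [h4]
      rw [← map_prod, hD, map_one]
  · intro t
    exact mult_transvection ρ t.hij t.c
  · intro A B hA hB
    rw [map_mul, hA, hB, one_mul]

end field

section product

variable {R K I : Type} [CommRing R] [Field K] [CharZero K] [Finite I] {n : Type} [Fintype n]
  [DecidableEq n] {G : Type} [CommMonoid G]

/-- matrices over a product -/
def matPi (κ : R ≃+* (I → K)) : Matrix n n R ≃* (I → Matrix n n K) where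
  toFun A i := A.map fun x => κ x i
  invFun f := Matrix.of fun a b => κ.symm fun i => f i a b
  left_inv A := by
    ext a b
    exact κ.symm_apply_apply _
  right_inv f := by
    funext i
    ext a b
    exact congrFun (κ.apply_symm_apply _) i
  map_mul' A B := by
    funext i
    ext a b
    simp only [Matrix.map_apply, Matrix.mul_apply, Pi.mul_apply, map_sum, map_mul,
      Finset.sum_apply]

lemma det_matPi (κ : R ≃+* (I → K)) (A : Matrix n n R) (i : I) :
    (matPi κ A i).det = κ A.det i := by
  have h := RingHom.map_det ((Pi.evalRingHom (fun _ : I => K) i).comp (κ : R →+* (I → K))) A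
  exact h.symm

/-- a multiplicative function of matrices over a product is `1` on matrices of determinant `1` -/
theorem mult_det_one_pi (κ : R ≃+* (I → K)) (ρ : Matrix n n R →* G) {A : Matrix n n R}
    (hA : A.det = 1) : ρ A = 1 := by
  classical
  have : Fintype I := Fintype.ofFinite I
  let ρ' : (I → Matrix n n K) →* G := ρ.comp (matPi κ).symm.toMonoidHom
  let σ : (I → Matrix n n K) →* G :=
    ∏ i, (ρ'.comp (MonoidHom.mulSingle (fun _ : I => Matrix n n K) i)).comp
      (Pi.evalMonoidHom (fun _ : I => Matrix n n K) i)
  have h : ρ' = σ := by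
    refine MonoidHom.pi_ext fun i x => ?_
    change _ = (∏ j, (ρ'.comp (MonoidHom.mulSingle (fun _ : I => Matrix n n K) j)).comp
      (Pi.evalMonoidHom (fun _ : I => Matrix n n K) j)) _
    rw [MonoidHom.finsetProd_apply, Finset.prod_eq_single i]
    · simp
    · intro j _ hj
      simp [hj]
    · intro h
      exact absurd (Finset.mem_univ _) h
  have h1 : ρ A = ρ' (matPi κ A) := by
    change _ = ρ ((matPi κ).symm (matPi κ A))
    rw [MulEquiv.symm_apply_apply]
  rw [h1, h]
  change (∏ j, (ρ'.comp (MonoidHom.mulSingle (fun _ : I => Matrix n n K) j)).comp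
      (Pi.evalMonoidHom (fun _ : I => Matrix n n K) j)) _ = 1
  rw [MonoidHom.finsetProd_apply]
  refine Finset.prod_eq_one fun i _ => ?_
  refine mult_det_one (ρ'.comp (MonoidHom.mulSingle (fun _ : I => Matrix n n K) i)) ?_
  rw [Pi.evalMonoidHom_apply, det_matPi, hA, map_one]
  rfl

/-- a multiplicative function of matrices over a product that is `c ^ α` on the scalar matrices is a
power of the determinant -/
theorem mult_eq_pow [IsAlgClosed K] [Nonempty I] (κ : R ≃+* (I → K)) {k α : ℕ}
    (ρ : Matrix (Fin k) (Fin k) R →* R)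
    (h : ∀ c : Rˣ, ρ ((c : R) • (1 : Matrix (Fin k) (Fin k) R)) = (c : R) ^ α) :
    ∃ α' : ℕ, α = k * α' ∧ ∀ A : Matrix (Fin k) (Fin k) R, IsUnit A.det → ρ A = A.det ^ α' := by
  obtain ⟨i0⟩ := ‹Nonempty I›
  have unit_of : ∀ f g : I → K, (∀ i, f i * g i = 1) → ∃ c : Rˣ, κ (c : R) = f ∧ κ ((c⁻¹ : Rˣ) : R) = g := by
    intro f g hfg
    have h1 : f * g = 1 := funext hfg
    have h2 : κ.symm f * κ.symm g = 1 := by rw [← map_mul, h1, map_one]
    exact ⟨⟨κ.symm f, κ.symm g, h2, by rw [mul_comm, h2]⟩, κ.apply_symm_apply f,
      κ.apply_symm_apply g⟩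
  rcases Nat.eq_zero_or_pos k with rfl | hk
  · obtain ⟨c, hc, -⟩ := unit_of (fun _ => 2) (fun _ => 2⁻¹) (fun _ => by
      rw [mul_inv_cancel₀ two_ne_zero])
    have h1 := h c
    rw [show (c : R) • (1 : Matrix (Fin 0) (Fin 0) R) = 1 from Subsingleton.elim _ _, map_one] at h1
    have h2 : α = 0 := by
      by_contra hα
      have h4 := congrFun (congrArg κ h1) i0
      rw [map_pow, hc, map_one] at h4
      have h3 : (2 : ℕ) ^ α = 1 := by
        have h5 : (1 : K) = 2 ^ α := h4
        exact_mod_cast h5.symm
      rw [Nat.pow_eq_one] at h3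
      omega
    refine ⟨0, by rw [h2], fun A _ => ?_⟩
    rw [show A = 1 from Subsingleton.elim _ _, map_one, pow_zero]
  · have : NeZero (k : K) := ⟨by exact_mod_cast hk.ne'⟩
    obtain ⟨ζ, hζ⟩ := HasEnoughRootsOfUnity.exists_primitiveRoot K k
    have hζ0 : ζ ≠ 0 := hζ.ne_zero hk.ne'
    obtain ⟨z, hz, -⟩ := unit_of (fun _ => ζ) (fun _ => ζ⁻¹) (fun _ => mul_inv_cancel₀ hζ0)
    have h1 : ρ ((z : R) • (1 : Matrix (Fin k) (Fin k) R)) = 1 := mult_det_one_pi κ ρ (by
      rw [Matrix.det_smul, Matrix.det_one, mul_one, Fintype.card_fin]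
      refine κ.injective ?_
      rw [map_pow, hz, map_one]
      funext i
      exact hζ.pow_eq_one)
    rw [h z] at h1
    have h1' : ζ ^ α = 1 := by
      have h4 := congrFun (congrArg κ h1) i0
      rw [map_pow, hz, map_one] at h4
      exact h4
    obtain ⟨α', rfl⟩ := (hζ.pow_eq_one_iff_dvd α).1 h1'
    refine ⟨α', rfl, fun A hA => ?_⟩
    have hex : ∀ i, ∃ y : K, y ^ k = κ A.det i := fun i => IsAlgClosed.exists_pow_nat_eq _ hk
    choose y hy using hex
    have hy0 : ∀ i, y i ≠ 0 := by
      intro i h0
      have h5 := hy i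
      rw [h0, zero_pow hk.ne'] at h5
      have h6 : IsUnit (κ A.det i) := (hA.map κ).map (Pi.evalRingHom (fun _ : I => K) i)
      rw [← h5] at h6
      exact not_isUnit_zero h6
    obtain ⟨c, hc, hc'⟩ := unit_of y (fun i => (y i)⁻¹) (fun i => mul_inv_cancel₀ (hy0 i))
    have hck : (c : R) ^ k = A.det := by
      refine κ.injective ?_
      rw [map_pow, hc]
      funext i
      exact hy i
    have h2 : A = ((c : R) • (1 : Matrix (Fin k) (Fin k) R)) * (((c⁻¹ : Rˣ) : R) • A) := by
      rw [smul_mul_smul_comm, Units.mul_inv, one_smul, one_mul]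
    have h3 : ρ (((c⁻¹ : Rˣ) : R) • A) = 1 := mult_det_one_pi κ ρ (by
      rw [Matrix.det_smul, Fintype.card_fin, ← hck, ← mul_pow, Units.inv_mul, one_pow])
    rw [h2, map_mul, h3, mul_one, h c, ← h2, ← hck, pow_mul]

end product

end Pool.Agent.X33.DP
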