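import Pool.Agent.X33.DP.LVal
import Pool.Agent.X33.DR.Mult

/-!
# The ratio of the periods of a motive obtained from `M` by an odd multiplicative functor
-/

set_option autoImplicit false
set_option linter.unusedSectionVars false

namespace Pool.Agent.X33.DP

open TensorProduct Module

section L

variable {K V : Type} [CommRing K] [AddCommGroup V] [Module K V] {n : ℕ}

/-- block diagonal operators -/
noncomputable def L (b : Basis (Fin n ⊕ Fin n) K V) (g h : Matrix (Fin n) (Fin n) K) :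
    Module.End K V :=
  Matrix.toLin b b (Matrix.fromBlocks g 0 0 h)

lemma L_mul (b : Basis (Fin n ⊕ Fin n) K V) (g h g' h' : Matrix (Fin n) (Fin n) K) :
    L b g h * L b g' h' = L b (g * g') (h * h') := by
  rw [L, L, L, Module.End.mul_eq_comp, ← Matrix.toLin_mul, Matrix.fromBlocks_multiply]
  simp

lemma L_one (b : Basis (Fin n ⊕ Fin n) K V) : L b 1 1 = 1 := by
  rw [L, Matrix.fromBlocks_one, Matrix.toLin_one]
  rfl

end L

namespace Mot

variable {E K : Type} [Field E] [CommRing K] [Algebra E K] [CharZero E] {M T : Mot E K}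

/-- the determinant on `T^+` -/
noncomputable def Dl (T : Mot E K) (X : Module.End K (K ⊗[E] T.B)) : K :=
  LinearMap.det (T.res X 1 1)

lemma Dl_one (T : Mot E K) : T.Dl 1 = 1 := by
  rw [Dl, show (1 : Module.End K (K ⊗[E] T.B)) = LinearMap.id from rfl, T.res_id, LinearMap.det_id]

lemma Dl_mul (T : Mot E K) (X : Module.End K (K ⊗[E] T.B)) {Y : Module.End K (K ⊗[E] T.B)}
    (hY : T.F * Y = Y * T.F) : T.Dl (X * Y) = T.Dl X * T.Dl Y := by
  rw [Dl, Dl, Dl, ← LinearMap.det_comp, T.res_res (c := 1) (fun x => by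
    rw [Units.val_one, one_smul]
    exact LinearMap.congr_fun hY x) (by rw [one_mul])]
  rfl

lemma F_bB {n : ℕ} (u : Basis (Fin n) E (M.eig 1)) (u' : Basis (Fin n) E (M.eig (-1))) :
    M.F = L ((M.bB u u').baseChange K) 1 (-1) := by
  refine ((M.bB u u').baseChange K).ext fun k => ?_
  rw [L, Matrix.toLin_self, Basis.baseChange_apply, LinearMap.baseChange_tmul, frob_bB,
    Fintype.sum_sum_type]
  rcases k with i | i
  · simp [Matrix.one_apply, sgn]
  · simp [Matrix.one_apply, sgn, tmul_neg]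

/-- the rational involution -/
noncomputable def j0 {n : ℕ} (u : Basis (Fin n) E (M.eig 1)) (u' : Basis (Fin n) E (M.eig (-1))) :
    Module.End E M.B :=
  Matrix.toLin (M.bB u u') (M.bB u u') (Matrix.fromBlocks 0 1 1 0)

lemma j0_inl {n : ℕ} (u : Basis (Fin n) E (M.eig 1)) (u' : Basis (Fin n) E (M.eig (-1)))
    (i : Fin n) : j0 u u' (M.bB u u' (.inl i)) = M.bB u u' (.inr i) := by
  rw [j0, Matrix.toLin_self, Fintype.sum_sum_type]
  simp [Matrix.one_apply]

lemma j0_inr {n : ℕ} (u : Basis (Fin n) E (M.eig 1)) (u' : Basis (Fin n) E (M.eig (-1)))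
    (i : Fin n) : j0 u u' (M.bB u u' (.inr i)) = M.bB u u' (.inl i) := by
  rw [j0, Matrix.toLin_self, Fintype.sum_sum_type]
  simp [Matrix.one_apply]

lemma j0_j0 {n : ℕ} (u : Basis (Fin n) E (M.eig 1)) (u' : Basis (Fin n) E (M.eig (-1))) :
    (j0 u u').baseChange K * (j0 u u').baseChange K = 1 := by
  refine ((M.bB u u').baseChange K).ext fun k => ?_
  rw [Module.End.mul_apply, Basis.baseChange_apply, LinearMap.baseChange_tmul,
    LinearMap.baseChange_tmul]
  rcases k with i | i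
  · rw [j0_inl, j0_inr]
    rfl
  · rw [j0_inr, j0_inl]
    rfl

lemma F_j0 {n : ℕ} (u : Basis (Fin n) E (M.eig 1)) (u' : Basis (Fin n) E (M.eig (-1))) :
    M.F * (j0 u u').baseChange K = -((j0 u u').baseChange K * M.F) := by
  refine ((M.bB u u').baseChange K).ext fun k => ?_
  rw [LinearMap.neg_apply, Module.End.mul_apply, Module.End.mul_apply, Basis.baseChange_apply,
    LinearMap.baseChange_tmul, LinearMap.baseChange_tmul, LinearMap.baseChange_tmul, frob_bB]
  rcases k with i | i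
  · rw [j0_inl, frob_bB]
    simp [sgn, tmul_neg, j0_inl, LinearMap.baseChange_tmul]
  · rw [j0_inr, frob_bB]
    simp [sgn, tmul_neg, j0_inr, LinearMap.baseChange_tmul]

lemma J_eq {n : ℕ} (u : Basis (Fin n) E (M.eig 1)) (u' : Basis (Fin n) E (M.eig (-1))) :
    M.J = (j0 u u').baseChange K *
      L ((M.bB u u').baseChange K) (M.mJ 1 (-1) u u') (M.mJ (-1) 1 u' u) := by
  refine ((M.bB u u').baseChange K).ext fun k => ?_
  rw [Module.End.mul_apply, L, Matrix.toLin_self, Fintype.sum_sum_type, map_add, map_sum, map_sum]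
  simp only [map_smul, Basis.baseChange_apply, LinearMap.baseChange_tmul, j0_inl, j0_inr]
  rcases k with i | i
  · rw [bB_inl, M.J_inc rfl u u']
    simp [bB_inr]
  · rw [bB_inr, M.J_inc (s := -1) (s' := 1) (by rw [neg_neg]) u' u]
    simp [bB_inl]

lemma grp {G : Type} [CommGroup G] (x t g y z s : G) :
    x * (t * (g * (y * z) * s)) / t = x * g * s * y * z := by
  rw [div_eq_iff_eq_mul]
  ac_rfl

/-- **the general formula** -/
theorem functor_main {C I : Type} [Field C] [CharZero C] [IsAlgClosed C] [Finite I] [Nonempty I]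
    [Nontrivial K] (κ : K ≃+* (I → C)) (hM : M.NoMiddle) (hT : T.NoMiddle) {n : ℕ}
    (u : Basis (Fin n) E (M.eig 1)) (u' : Basis (Fin n) E (M.eig (-1)))
    (Θ : Module.End K (K ⊗[E] M.B) →* Module.End K (K ⊗[E] T.B)) (hF : Θ M.F = T.F)
    (hneg : Θ (-1) = -1) (hJ : Θ M.J * T.J = T.J * Θ M.J)
    (hrat : ∀ g : Module.End E M.B, ∃ g' : Module.End E T.B, Θ (g.baseChange K) = g'.baseChange K)
    (hsign : T.F * (Θ M.J * T.J) = (Θ M.J * T.J) * T.F → (Θ M.J * T.J) * (Θ M.J * T.J) = 1 →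
      ∃ sg : Eˣ, Dl T (Θ M.J * T.J) = algebraMap E K sg)
    {α β : ℕ} (hdet : ∀ c d : Kˣ,
      Dl T (Θ (L ((M.bB u u').baseChange K) ((c : K) • 1) ((d : K) • 1))) = (c : K) ^ α * (d : K) ^ β) :
    ∃ m : ℤ, m * n = α - β ∧ ∀ cp cm tp tm : Kˣ, M.IsPeriod 1 (cp : K) → M.IsPeriod (-1) (cm : K) →
      T.IsPeriod 1 (tp : K) → T.IsPeriod (-1) (tm : K) →
      ∃ e : Eˣ, tp / tm = Units.map (algebraMap E K : E →* K) e * (cp / cm) ^ m := by
  set b := (M.bB u u').baseChange K with hb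
  have hFL : ∀ g h, T.F * Θ (L b g h) = Θ (L b g h) * T.F := fun g h => by
    rw [← hF, ← map_mul, ← map_mul, F_bB u u', ← hb, L_mul, L_mul]
    simp
  let ρ1 : Matrix (Fin n) (Fin n) K →* K :=
    { toFun := fun g => Dl T (Θ (L b g 1))
      map_one' := by rw [L_one, map_one, T.Dl_one]
      map_mul' := fun g g' => by
        rw [← T.Dl_mul _ (hFL g' 1), ← map_mul, L_mul, one_mul] }
  let ρ2 : Matrix (Fin n) (Fin n) K →* K :=
    { toFun := fun g => Dl T (Θ (L b 1 g))
      map_one' := by rw [L_one, map_one, T.Dl_one]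
      map_mul' := fun g g' => by
        rw [← T.Dl_mul _ (hFL 1 g'), ← map_mul, L_mul, one_mul] }
  obtain ⟨α', rfl, h1⟩ := mult_eq_pow (α := α) κ ρ1 (fun c => by
    change Dl T (Θ (L b ((c : K) • 1) 1)) = (c : K) ^ α
    have := hdet c 1
    rw [Units.val_one, one_smul, one_pow, mul_one] at this
    exact this)
  obtain ⟨β', rfl, h2⟩ := mult_eq_pow (α := β) κ ρ2 (fun c => by
    change Dl T (Θ (L b 1 ((c : K) • 1))) = (c : K) ^ β
    have := hdet 1 c
    rw [Units.val_one, one_smul, one_pow, one_mul] at this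
    exact this)
  refine ⟨α' - β', by push_cast; ring, ?_⟩
  intro cp cm tp tm hcp hcm htp htm
  obtain ⟨r, t, d, -⟩ := id htp
  obtain ⟨r', t0, d', -⟩ := id htm
  let t' : Basis (Fin r) E (T.eig (-1)) := t0.reindex (d'.indexEquiv d)
  obtain ⟨e1, he1, h3⟩ := M.ratio hM (s := 1) (s' := -1) rfl hcp hcm u u'
  obtain ⟨e2, he2, h4⟩ := T.ratio hT (s := 1) (s' := -1) rfl htp htm t t'
  change (cp : K) = algebraMap E K e1 * (cm * (M.mJ 1 (-1) u u').det) at h3
  set A := M.mJ 1 (-1) u u'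
  set A' := M.mJ (-1) 1 u' u
  have hAA : A'.det * A.det = 1 := by
    rw [← Matrix.det_mul, M.mJ_mul hM rfl, Matrix.det_one]
  let Au : Kˣ := ⟨A.det, A'.det, by rw [mul_comm, hAA], hAA⟩
  have hAu : (Au : K) = A.det := rfl
  have hAu' : ((Au⁻¹ : Kˣ) : K) = A'.det := rfl
  -- the operators
  have hJJ : M.J * M.J = 1 := LinearMap.ext (M.J_J hM)
  have hJJT : T.J * T.J = 1 := LinearMap.ext (T.J_J hT)
  have hΘJ : Θ M.J * Θ M.J = 1 := by rw [← map_mul, hJJ, map_one]
  have hFJ : M.F * M.J = -(M.J * M.F) := LinearMap.ext fun x => by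
    change M.F (M.J x) = -(M.J (M.F x))
    rw [M.J_F, neg_neg]
  have hFJT : T.F * T.J = -(T.J * T.F) := LinearMap.ext fun x => by
    change T.F (T.J x) = -(T.J (T.F x))
    rw [T.J_F, neg_neg]
  have hΘneg : ∀ Y, Θ (-Y) = -Θ Y := fun Y => by
    have h5 : -Y = (-1) * Y := LinearMap.ext fun x => rfl
    rw [h5, map_mul, hneg]
    exact LinearMap.ext fun x => rfl
  have hFΘ : ∀ X : Module.End K (K ⊗[E] M.B), M.F * X = -(X * M.F) →
      T.F * Θ X = -(Θ X * T.F) := fun X hX => by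
    rw [← hF, ← map_mul, hX, hΘneg, map_mul]
  have hFΘJ := hFΘ _ hFJ
  set X := Θ M.J * T.J with hX
  have hFX : T.F * X = X * T.F := by
    refine LinearMap.ext fun x => ?_
    have h5 : T.F (Θ M.J (T.J x)) = -(Θ M.J (T.F (T.J x))) := LinearMap.congr_fun hFΘJ (T.J x)
    have h6 : T.F (T.J x) = -(T.J (T.F x)) := LinearMap.congr_fun hFJT x
    change T.F (Θ M.J (T.J x)) = Θ M.J (T.J (T.F x))
    rw [h5, h6, map_neg, neg_neg]
  have hXX : X * X = 1 := by
    calc X * X = Θ M.J * (T.J * Θ M.J) * T.J := by rw [hX]; noncomm_ring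
      _ = (Θ M.J * Θ M.J) * (T.J * T.J) := by rw [← hJ]; noncomm_ring
      _ = 1 := by rw [hΘJ, hJJT, one_mul]
  obtain ⟨sg, hsg⟩ := hsign hFX hXX
  have hTJ : T.J = Θ M.J * X := by rw [hX, ← mul_assoc, hΘJ, one_mul]
  -- the determinants
  obtain ⟨g', hg'⟩ := hrat (j0 u u')
  have hFg : T.F * g'.baseChange K = -(g'.baseChange K * T.F) := by
    rw [← hg']
    exact hFΘ _ (F_j0 u u')
  have hcomp1 : T.res T.J 1 (-1) = T.res (Θ M.J) 1 (-1) ∘ₗ T.res X 1 1 := by
    rw [T.res_res (c := 1) (fun x => by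
      rw [Units.val_one, one_smul]
      exact LinearMap.congr_fun hFX x) (by rw [one_mul])]
    exact congrArg (fun Y => T.res Y 1 (-1)) hTJ
  have hcomp2 : T.res (Θ M.J) 1 (-1) = T.res (g'.baseChange K) 1 (-1) ∘ₗ T.res (Θ (L b A A')) 1 1 := by
    rw [T.res_res (c := 1) (fun x => by
      rw [Units.val_one, one_smul]
      exact LinearMap.congr_fun (hFL A A') x) (by rw [one_mul])]
    have h5 : Θ M.J = g'.baseChange K * Θ (L b A A') := by
      rw [← hg', ← map_mul, ← J_eq u u']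
    exact congrArg (fun Y => T.res Y 1 (-1)) h5
  have hFg' : ∀ x, T.F (g'.baseChange K x) = ((-1 : ℤˣ) : ℤ) • g'.baseChange K (T.F x) := fun x => by
    have h5 := LinearMap.congr_fun hFg x
    rw [Units.val_neg, Units.val_one, neg_smul, one_smul]
    simpa using h5
  have hgg : T.res (g'.baseChange K) (-1) 1 ∘ₗ T.res (g'.baseChange K) 1 (-1) = LinearMap.id := by
    rw [T.res_res (c := -1) hFg' (by rw [neg_one_mul])]
    have h5 : g'.baseChange K ∘ₗ g'.baseChange K = (LinearMap.id : (K ⊗[E] T.B) →ₗ[K] _) := by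
      change g'.baseChange K * g'.baseChange K = 1
      rw [← hg', ← map_mul, j0_j0, map_one]
    rw [h5, T.res_id]
  have hres : T.res (g'.baseChange K) 1 (-1) =
      (T.pr0 (-1) ∘ₗ g' ∘ₗ (T.eig 1).subtype).baseChange K := by
    rw [LinearMap.baseChange_comp, LinearMap.baseChange_comp]
    rfl
  set G := LinearMap.toMatrix t t' (T.pr0 (-1) ∘ₗ g' ∘ₗ (T.eig 1).subtype) with hG
  have hmat : LinearMap.toMatrix (t.baseChange K) (t'.baseChange K)
      (T.res (g'.baseChange K) 1 (-1)) = G.map (algebraMap E K) := by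
    ext i j
    rw [hres, LinearMap.toMatrix_apply, Basis.baseChange_apply, LinearMap.baseChange_tmul,
      Basis.baseChange_repr_tmul, Matrix.map_apply, hG, LinearMap.toMatrix_apply,
      Algebra.smul_def, mul_one]
  have hG0 : G.det ≠ 0 := by
    intro h0
    have h5 := congrArg (LinearMap.toMatrix (t.baseChange K) (t.baseChange K)) hgg
    rw [LinearMap.toMatrix_comp (t.baseChange K) (t'.baseChange K) (t.baseChange K), hmat,
      LinearMap.toMatrix_id] at h5
    have h6 := congrArg Matrix.det h5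
    rw [Matrix.det_mul, Matrix.det_one, ← RingHom.mapMatrix_apply, ← RingHom.map_det, h0, map_zero,
      mul_zero] at h6
    exact zero_ne_one h6
  have hdetJ : (T.mJ 1 (-1) t t').det =
      algebraMap E K G.det * (A.det ^ α' * A'.det ^ β') * Dl T X := by
    rw [Mot.mJ, hcomp1, hcomp2, LinearMap.comp_assoc,
      LinearMap.toMatrix_comp (t.baseChange K) (t.baseChange K) (t'.baseChange K), hmat,
      LinearMap.toMatrix_comp (t.baseChange K) (t.baseChange K) (t.baseChange K),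
      Matrix.det_mul, Matrix.det_mul, LinearMap.det_toMatrix, LinearMap.det_toMatrix,
      ← RingHom.mapMatrix_apply, ← RingHom.map_det]
    have h5 : LinearMap.det (T.res (Θ (L b A A')) 1 1) = A.det ^ α' * A'.det ^ β' := by
      rw [← h1 A Au.isUnit, ← h2 A' (Au⁻¹).isUnit]
      change Dl T (Θ (L b A A')) = Dl T (Θ (L b A 1)) * Dl T (Θ (L b 1 A'))
      rw [← T.Dl_mul _ (hFL 1 A'), ← map_mul, L_mul, one_mul, mul_one]
    rw [h5]
    change _ * (_ * Dl T X) = _
    ring
  change (tp : K) = algebraMap E K e2 * (tm * (T.mJ 1 (-1) t t').det) at h4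
  -- units
  let φ : Eˣ →* Kˣ := Units.map (algebraMap E K : E →* K)
  have hφ : ∀ x : Eˣ, ((φ x : Kˣ) : K) = algebraMap E K (x : E) := fun _ => rfl
  have h3' : cp = φ (Units.mk0 e1 he1) * (cm * Au) := by
    refine Units.ext ?_
    rw [Units.val_mul, Units.val_mul, hφ, hAu]
    exact h3
  have h4' : tp = φ (Units.mk0 e2 he2) * (tm * (φ (Units.mk0 _ hG0) * (Au ^ α' * Au⁻¹ ^ β') * φ sg)) := by
    refine Units.ext ?_
    rw [Units.val_mul, Units.val_mul, Units.val_mul, Units.val_mul, Units.val_mul, hφ, hφ, hφ,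
      Units.val_pow_eq_pow_val, Units.val_pow_eq_pow_val, hAu, hAu', h4, hdetJ, hsg]
    rfl
  have hAe : Au = (φ (Units.mk0 e1 he1))⁻¹ * (cp / cm) := by
    rw [h3', mul_div_assoc, inv_mul_cancel_left, mul_div_cancel_left]
  refine ⟨Units.mk0 e2 he2 * Units.mk0 _ hG0 * sg * ((Units.mk0 e1 he1)⁻¹) ^ ((α' : ℤ) - β'), ?_⟩
  change _ = φ _ * _
  have h6 : Au ^ α' * Au⁻¹ ^ β' = Au ^ ((α' : ℤ) - β') := by
    rw [zpow_sub, zpow_natCast, zpow_natCast, inv_pow]
  rw [h4', h6, map_mul, map_mul, map_mul, map_zpow, map_inv, hAe, mul_zpow]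
  exact grp _ _ _ _ _ _

end Mot

end Pool.Agent.X33.DP
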