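import Pool.Agent.X33.DR.Weight

/-!
# The determinant of an involution with trace in `E`
-/

set_option autoImplicit false
set_option linter.unusedSectionVars false

namespace Pool.Agent.X33.DP

open TensorProduct Module

/-- trace and determinant of an involution over a field -/
lemma invol {C : Type} [Field C] [CharZero C] {N : ℕ} (A : Matrix (Fin N) (Fin N) C)
    (hA : A * A = 1) : ∃ m : ℕ, A.det = (-1) ^ m ∧ A.trace = N - 2 * (m : C) := by
  let V := Fin N → C
  let P : Submodule C V := LinearMap.ker (A.mulVecLin - LinearMap.id)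
  let Q : Submodule C V := LinearMap.ker (A.mulVecLin + LinearMap.id)
  have hP : ∀ x, x ∈ P ↔ A.mulVec x = x := fun x => by
    rw [LinearMap.mem_ker, LinearMap.sub_apply, sub_eq_zero]
    rfl
  have hQ : ∀ x, x ∈ Q ↔ A.mulVec x = -x := fun x => by
    rw [LinearMap.mem_ker, LinearMap.add_apply, add_eq_zero_iff_eq_neg]
    rfl
  have hAA : ∀ x, A.mulVec (A.mulVec x) = x := fun x => by
    rw [Matrix.mulVec_mulVec, hA, Matrix.one_mulVec]
  have hPQ : IsCompl P Q := by
    constructor
    · rw [Submodule.disjoint_def]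
      intro x hx hx'
      rw [hP] at hx
      rw [hQ, hx] at hx'
      have h3 : (2 : C) • x = 0 := by
        rw [two_smul]
        nth_rewrite 1 [hx']
        exact neg_add_cancel x
      exact (smul_eq_zero.1 h3).resolve_left two_ne_zero
    · rw [codisjoint_iff, Submodule.eq_top_iff']
      intro x
      rw [Submodule.mem_sup]
      refine ⟨(1 / 2 : C) • (x + A.mulVec x), ?_, (1 / 2 : C) • (x - A.mulVec x), ?_, ?_⟩
      · rw [hP, Matrix.mulVec_smul, Matrix.mulVec_add, hAA, add_comm]
      · rw [hQ, Matrix.mulVec_smul, Matrix.mulVec_sub, hAA, ← smul_neg, neg_sub]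
      · rw [← smul_add, show x + A.mulVec x + (x - A.mulVec x) = (2 : C) • x by
          rw [two_smul]
          abel, smul_smul]
        norm_num
  let bP : Basis (Fin (finrank C P)) C P := finBasis C P
  let bQ : Basis (Fin (finrank C Q)) C Q := finBasis C Q
  let b : Basis (Fin (finrank C P) ⊕ Fin (finrank C Q)) C V :=
    (bP.prod bQ).map (Submodule.prodEquivOfIsCompl _ _ hPQ)
  have hl : ∀ i, b (Sum.inl i) = bP i := fun i => by
    rw [Basis.map_apply, Basis.prod_apply]
    change ((bP i : V)) + ((0 : Q) : V) = bP i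
    rw [Submodule.coe_zero, add_zero]
  have hr : ∀ i, b (Sum.inr i) = bQ i := fun i => by
    rw [Basis.map_apply, Basis.prod_apply]
    change ((0 : P) : V) + ((bQ i : V)) = bQ i
    rw [Submodule.coe_zero, zero_add]
  let l : Fin (finrank C P) ⊕ Fin (finrank C Q) → C := Sum.elim (fun _ => 1) (fun _ => -1)
  have hb : ∀ j, A.mulVec (b j) = l j • b j := by
    intro j
    rcases j with i | i
    · rw [hl, (hP _).1 (bP i).2]
      exact (one_smul C _).symm
    · rw [hr, (hQ _).1 (bQ i).2]
      exact (neg_one_smul C _).symm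
  have hN : finrank C P + finrank C Q = N := by
    have h1 := Module.finrank_eq_card_basis b
    rw [Fintype.card_sum, Fintype.card_fin, Fintype.card_fin, Module.finrank_fin_fun] at h1
    exact h1.symm
  refine ⟨finrank C Q, ?_, ?_⟩
  · have h1 : A.det = LinearMap.det A.mulVecLin := by
      rw [← Matrix.toLin'_apply', LinearMap.det_toLin']
    rw [h1, det_of_diag b _ l (fun j => hb j), Fintype.prod_sum_type]
    simp [l]
  · rw [trace_of_diag b A l hb, Fintype.sum_sum_type]
    simp only [l, Sum.elim_inl, Sum.elim_inr, Finset.sum_const, Finset.card_univ, Fintype.card_fin,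
      nsmul_eq_mul]
    have hN' : (N : C) = finrank C P + finrank C Q := by exact_mod_cast hN.symm
    rw [hN']
    ring

namespace Mot

variable {E R : Type} [Field E] [CommRing R] [Algebra E R] [CharZero E]

/-- the trace of an operator on `T^+` -/
lemma trace_res (T : Mot E R) {X : Module.End R (R ⊗[E] T.B)} (hJJ : T.J * T.J = 1)
    (hJX : T.J * X = X * T.J) :
    LinearMap.trace R _ (T.res X 1 1) = algebraMap E R (1 / 2) * LinearMap.trace R _ X := by
  have h1 : LinearMap.trace R _ (T.res X 1 1) =
      LinearMap.trace R _ ((T.inc 1 ∘ₗ T.pr 1) ∘ₗ X) := by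
    exact (LinearMap.trace_comp_comm' (T.pr 1 ∘ₗ X) (T.inc 1)).symm
  have h2 : (T.inc 1 ∘ₗ T.pr 1) ∘ₗ X = (algebraMap E R (1 / 2)) • (X + T.F * X) := by
    refine LinearMap.ext fun z => ?_
    rw [LinearMap.comp_apply, LinearMap.comp_apply, T.inc_pr, Units.val_one, one_smul]
    rfl
  have hconj : (T.J * (T.F * X)) * T.J = (-1 : R) • (T.F * X) := LinearMap.ext fun z => by
    have h7 : T.J (X (T.J z)) = X z := by
      have h8 := LinearMap.congr_fun hJX (T.J z)
      have h9 : T.J (T.J z) = z := LinearMap.congr_fun hJJ z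
      change T.J (X (T.J z)) = X (T.J (T.J z)) at h8
      rw [h8, h9]
    change T.J (T.F (X (T.J z))) = (-1 : R) • (T.F (X z))
    rw [T.J_F, h7]
    exact (neg_one_smul R (T.F (X z))).symm
  have h3 : LinearMap.trace R _ (T.F * X) = 0 := by
    have h4 : LinearMap.trace R _ (T.F * X) = -LinearMap.trace R _ (T.F * X) := by
      calc LinearMap.trace R _ (T.F * X) = LinearMap.trace R _ (T.J * (T.J * (T.F * X))) := by
            rw [← mul_assoc T.J T.J, hJJ, one_mul]
        _ = LinearMap.trace R _ ((T.J * (T.F * X)) * T.J) := LinearMap.trace_mul_comm R _ _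
        _ = -LinearMap.trace R _ (T.F * X) := by
          rw [hconj, map_smul, neg_one_smul]
    have h5 : (2 : R) * LinearMap.trace R _ (T.F * X) = 0 := by linear_combination h4
    have h6 := half_two E R
    calc LinearMap.trace R _ (T.F * X) =
        algebraMap E R (1 / 2) * ((2 : R) * LinearMap.trace R _ (T.F * X)) := by
          rw [← mul_assoc, h6, one_mul]
      _ = 0 := by rw [h5, mul_zero]
  rw [h1, h2, map_smul, map_add, h3, add_zero, smul_eq_mul]

/-- an involution commuting with `F_∞` and `J` whose trace is in `E` has determinant `± 1` on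
`T^+` -/
lemma Dl_invol {C I : Type} [Field C] [CharZero C] [Nonempty I] (κ : R ≃+* (I → C)) (T : Mot E R)
    {X : Module.End R (R ⊗[E] T.B)} (hJJ : T.J * T.J = 1) (hJX : T.J * X = X * T.J)
    (hFX : T.F * X = X * T.F) (hXX : X * X = 1) {x : E}
    (hx : LinearMap.trace R _ X = algebraMap E R x) :
    ∃ sg : Eˣ, Dl T X = algebraMap E R sg := by
  let t : Basis (Fin (finrank E (T.eig 1))) E (T.eig 1) := finBasis E _
  set A := LinearMap.toMatrix (t.baseChange R) (t.baseChange R) (T.res X 1 1) with hA
  have hAA : A * A = 1 := by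
    rw [hA, ← LinearMap.toMatrix_comp, T.res_res (c := 1) (fun y => by
      rw [Units.val_one, one_smul]
      exact LinearMap.congr_fun hFX y) (by rw [one_mul]),
      show X ∘ₗ X = LinearMap.id from hXX, T.res_id, LinearMap.toMatrix_id]
  have htr : A.trace = algebraMap E R (1 / 2 * x) := by
    rw [hA, ← LinearMap.trace_eq_matrix_trace, T.trace_res hJJ hJX, hx, ← map_mul]
  have hdet : A.det = Dl T X := by
    rw [hA, LinearMap.det_toMatrix]
    rfl
  let f : I → R →+* C := fun i => (Pi.evalRingHom (fun _ : I => C) i).comp (κ : R →+* (I → C))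
  have hf : ∀ i, ∃ m : ℕ, f i A.det = (-1) ^ m ∧
      1 / 2 * x = finrank E (T.eig 1) - 2 * (m : E) := by
    intro i
    obtain ⟨m, h1, h2⟩ := invol (A.map (f i)) (by
      rw [← Matrix.map_mul, hAA, Matrix.map_one _ (map_zero _) (map_one _)])
    refine ⟨m, ?_, ?_⟩
    · rw [RingHom.map_det]
      exact h1
    · refine ((f i).comp (algebraMap E R)).injective ?_
      rw [RingHom.comp_apply, ← htr, map_sub, map_mul, map_natCast, map_natCast, map_ofNat, ← h2]
      exact AddMonoidHom.map_trace (f i) A
  obtain ⟨i0⟩ := ‹Nonempty I›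
  obtain ⟨m0, h1, h2⟩ := hf i0
  refine ⟨(-1) ^ m0, ?_⟩
  rw [← hdet]
  refine κ.injective (funext fun i => ?_)
  obtain ⟨m, h3, h4⟩ := hf i
  have h5 : m = m0 := by
    rw [h2] at h4
    have h6 : (m : E) = m0 := by linear_combination (1 / 2 : E) * h4
    exact_mod_cast h6
  change f i A.det = f i _
  rw [h3, h5, Units.val_pow_eq_pow_val, Units.val_neg, Units.val_one, map_pow, map_pow, map_neg,
    map_neg, map_one, map_one]

end Mot

end Pool.Agent.X33.DP
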