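import Pool.Agent.X33.DR.TrX
import Pool.Agent.X33.DP.Sy
import Pool.Agent.X33.DP.CMain

/-!
# The periods of Schur functors, exterior and symmetric powers
-/

set_option autoImplicit false
set_option linter.unusedSectionVars false

namespace Pool.Agent.X33.DP

open TensorProduct Module Equiv

namespace PMot

section defs

variable {E R : Type} [Field E] [CommRing R] [Algebra E R]

/-- `c^s(T) / c^{-s}(T) = (c^s(M) / c^{-s}(M)) ^ r` modulo `Eˣ`, in the group `Rˣ` of units of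
`R = E ⊗ ℂ` -/
def RatioPow (M T : PMot E R) (r : ℤ) : Prop :=
  ∀ (s : ℤˣ) (c c' t t' : Rˣ), M.IsPeriod s c → M.IsPeriod (-s) c' →
    T.IsPeriod s t → T.IsPeriod (-s) t' →
    ∃ e : Eˣ, t / t' = Units.map (algebraMap E R : E →* R) e * (c / c') ^ r

/-- if Deligne's formula for `T` holds for the unit `y'` at `m'`, then Deligne's formula for `y` at an
integer `m` of the other parity is equivalent to the formula
`y ∼ (2πi)^((m - m') dim T^+) y' (c^s(M) / c^{-s}(M)) ^ r`, `s = (-1)^m` -/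
def TransferPow (τ : ℤ → R) (M T : PMot E R) (r : ℤ) : Prop :=
  ∀ (m m' : ℤ) (c c' : Rˣ) (y : R) (y' : Rˣ), ((-1 : ℤˣ) ^ m') = -(-1) ^ m →
    M.IsPeriod ((-1) ^ m) c → M.IsPeriod (-(-1) ^ m) c' → Formula τ T m' y' →
    (Formula τ T m y ↔
      ∃ e : E, y = algebraMap E R e * (τ ((m - m') * T.dim 1) * y' * ((c / c') ^ r : Rˣ)))

end defs

section basic

variable {E R : Type} [Field E] [CommRing R] [Algebra E R] [CharZero E] [Nontrivial R]
  {M T : PMot E R}

lemma ratioPow_of {r : ℤ} (h : ∀ cp cm tp tm : Rˣ, M.IsPeriod 1 cp → M.IsPeriod (-1) cm →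
      T.IsPeriod 1 tp → T.IsPeriod (-1) tm →
      ∃ e : Eˣ, tp / tm = Units.map (algebraMap E R : E →* R) e * (cp / cm) ^ r) :
    RatioPow M T r := by
  intro s c c' t t' hc hc' ht ht'
  rcases Int.units_eq_one_or s with rfl | rfl
  · exact h c c' t t' hc hc' ht ht'
  · rw [neg_neg] at hc' ht'
    obtain ⟨e, h1⟩ := h c' c t' t hc' hc ht' ht
    refine ⟨e⁻¹, ?_⟩
    rw [← inv_div, h1, mul_inv, map_inv, ← inv_zpow, inv_div]

theorem transferPow (τ : ℤ → R) (hτ : ∀ k l, τ k * τ l = τ (k + l))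
    (hT : T.NoMiddle) {r : ℤ} (h : RatioPow M T r) : TransferPow τ M T r := by
  intro m m' c c' y y' hm hc hc' hf
  obtain ⟨t, ht⟩ := T.exists_isPeriod hT ((-1) ^ m)
  obtain ⟨t', ht'⟩ := T.exists_isPeriod hT (-(-1) ^ m)
  obtain ⟨tu, rfl⟩ := isUnit_isPeriod hT ht
  obtain ⟨tu', rfl⟩ := isUnit_isPeriod hT ht'
  obtain ⟨e, h1⟩ := h _ c c' tu tu' hc hc' ht ht'
  obtain ⟨e', h2⟩ := hf tu' (by rw [hm]; exact ht')
  rw [dim_eq hT _ 1] at h2
  have he' : e' ≠ 0 := by
    rintro rfl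
    rw [map_zero, zero_mul] at h2
    exact y'.ne_zero h2
  have htt : τ ((m - m') * T.dim 1) * τ (m' * T.dim 1) = τ (m * T.dim 1) := by
    rw [hτ]
    congr 1
    ring
  have hr : (c / c') ^ r * tu' = Units.map (algebraMap E R : E →* R) e⁻¹ * tu := by
    have h3 : (c / c') ^ r = (Units.map (algebraMap E R : E →* R) e)⁻¹ * (tu / tu') := by
      rw [h1, inv_mul_cancel_left]
    rw [h3, map_inv, mul_assoc, div_mul_cancel]
  have hr' : (((c / c') ^ r : Rˣ) : R) * (tu' : R) = algebraMap E R ((e⁻¹ : Eˣ) : E) * (tu : R) :=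
    congrArg (fun x : Rˣ => (x : R)) hr
  have key : τ ((m - m') * T.dim 1) * y' * ((c / c') ^ r : Rˣ) =
      algebraMap E R (e' * ((e⁻¹ : Eˣ) : E)) * (τ (m * T.dim 1) * tu) := by
    rw [h2, map_mul, ← htt]
    linear_combination (algebraMap E R e' * τ ((m - m') * T.dim 1) * τ (m' * T.dim 1)) * hr'
  have he0 : e' * ((e⁻¹ : Eˣ) : E) ≠ 0 := mul_ne_zero he' (Units.ne_zero _)
  rw [key]
  constructor
  · intro hF
    obtain ⟨e1, h3⟩ := hF tu ht
    rw [dim_eq hT _ 1] at h3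
    refine ⟨e1 * (e' * ((e⁻¹ : Eˣ) : E))⁻¹, ?_⟩
    rw [← mul_assoc, ← map_mul, inv_mul_cancel_right₀ he0, h3]
  · rintro ⟨e1, h3⟩ t1 ht1
    obtain ⟨e2, he2, h4⟩ := Mot.period_unique _ (toMot_isPeriod ht) (toMot_isPeriod ht1)
    refine ⟨e1 * (e' * ((e⁻¹ : Eˣ) : E)) * e2, ?_⟩
    rw [h3, dim_eq hT ((-1) ^ m) 1, h4, map_mul (algebraMap E R) (e1 * _) e2,
      map_mul (algebraMap E R) e1]
    ring

end basic

variable {E R : Type} [Field E] [CommRing R] [Algebra E R] [CharZero E] [Nontrivial R]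
  {M T : PMot E R} {k : ℕ} {e : Perm (Fin k) → E} {π : Matrix (Fin T.N) (Fin k → Fin M.N) E}
  {γ : Matrix (Fin k → Fin M.N) (Fin T.N) E} {C I : Type} [Field C] [CharZero C] [IsAlgClosed C]
  [Finite I] [Nonempty I]

/-- **the ratio of the periods of a Schur functor** -/
theorem schur_main (κ : R ≃+* (I → C)) (h : IsSchur M T k e π γ) (hk : Odd k)
    (hM : M.NoMiddle) (hT : T.NoMiddle) :
    ∃ m : ℤ, (m : E) * M.N = (π * der k M.F * γ * T.F).trace ∧ RatioPow M T m := by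
  have hM' := toMot_noMiddle hM
  have hT' := toMot_noMiddle hT
  set n := finrank E (M.toMot.eig 1) with hn
  have hn' : finrank E (M.toMot.eig (-1)) = n := Mot.finrank_eig _ hM' _ _
  let u : Basis (Fin n) E (M.toMot.eig 1) := finBasis E _
  let u' : Basis (Fin n) E (M.toMot.eig (-1)) := finBasisOfFinrankEq E _ hn'
  have hN : M.N = 2 * n := by
    have h1 := Module.finrank_eq_card_basis (M.toMot.bB u u')
    rw [Fintype.card_sum, Fintype.card_fin] at h1
    have h2 : finrank E M.toMot.B = M.N := Module.finrank_fin_fun E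
    omega
  obtain ⟨α, β, h1, h2⟩ := exists_weights h u u'
  obtain ⟨x, hx⟩ := trace_X h
  have hJJT : T.toMot.J * T.toMot.J = 1 := LinearMap.ext (T.toMot.J_J hT')
  obtain ⟨m, h3, h4⟩ := Mot.functor_main κ hM' hT' u u' (Th h) (Th_F h) (Th_neg_one h hk) (Th_J h)
    (Th_rat h) (fun hFX hXX => Mot.Dl_invol κ T.toMot hJJT
      (by rw [← mul_assoc, ← Th_J h]) hFX hXX hx) (fun c d => h1 c d)
  refine ⟨m, ?_, ratioPow_of fun cp cm tp tm hcp hcm htp htm => h4 cp cm tp tm (toMot_isPeriod hcp)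
    (toMot_isPeriod hcm) (toMot_isPeriod htp) (toMot_isPeriod htm)⟩
  rw [trace_derT h u u', zero_add] at h2
  have h5 : (m : E) * n = α - β := by exact_mod_cast congrArg (fun x : ℤ => (x : E)) h3
  rw [derT] at h2
  rw [← h2, ← h5, hN]
  push_cast
  ring

/-- the ratio of the periods of a Schur functor in terms of the cycles of permutations -/
theorem schur_cyc (κ : R ≃+* (I → C)) (h : IsSchur M T k e π γ) (hk : Odd k) (hM : M.NoMiddle)
    (hT : T.NoMiddle) :
    ∃ r : ℤ, (r : E) * M.N = ∑ σ : Perm (Fin k), e σ * (oddLen σ * (M.N : E) ^ numCyc σ) ∧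
      RatioPow M T r := by
  obtain ⟨r, h1, h2⟩ := schur_main κ h hk hM hT
  refine ⟨r, ?_, h2⟩
  have hM' := toMot_noMiddle hM
  have hn' : finrank E (M.toMot.eig (-1)) = finrank E (M.toMot.eig 1) :=
    Mot.finrank_eig _ hM' _ _
  let u : Basis (Fin (finrank E (M.toMot.eig 1))) E (M.toMot.eig 1) := finBasis E _
  let u' : Basis (Fin (finrank E (M.toMot.eig 1))) E (M.toMot.eig (-1)) :=
    finBasisOfFinrankEq E _ hn'
  have hN : M.N = 2 * finrank E (M.toMot.eig 1) := by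
    have h3 := Module.finrank_eq_card_basis (M.toMot.bB u u')
    rw [Fintype.card_sum, Fintype.card_fin] at h3
    have h4 : finrank E M.toMot.B = M.N := Module.finrank_fin_fun E
    omega
  rw [h1, trace_cyc h u u', hN]
  push_cast
  rfl

lemma N_eq (hM : M.NoMiddle) : M.N = 2 * M.dim 1 := by
  have hM' := toMot_noMiddle hM
  have hn' : finrank E (M.toMot.eig (-1)) = finrank E (M.toMot.eig 1) :=
    Mot.finrank_eig _ hM' _ _
  let u : Basis (Fin (finrank E (M.toMot.eig 1))) E (M.toMot.eig 1) := finBasis E _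
  let u' : Basis (Fin (finrank E (M.toMot.eig 1))) E (M.toMot.eig (-1)) :=
    finBasisOfFinrankEq E _ hn'
  have h3 := Module.finrank_eq_card_basis (M.toMot.bB u u')
  rw [Fintype.card_sum, Fintype.card_fin] at h3
  have h4 : finrank E M.toMot.B = M.N := Module.finrank_fin_fun E
  have h5 := M.finrank_toMot 1
  omega

/-- the period of the zero motive -/
lemma period_zero (hN : M.N = 0) {s : ℤˣ} {c : R} (hc : M.IsPeriod s c) : c = 1 := by
  obtain ⟨n, B, Q, hB, -, -, -, rfl⟩ := hc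
  have hn : n = 0 := by
    by_contra hn
    obtain ⟨m, rfl⟩ := Nat.exists_eq_succ_of_ne_zero hn
    have : IsEmpty (Fin M.N) := by
      rw [hN]
      infer_instance
    have h1 : (fun _ : Fin (m + 1) => (0 : E)) = fun _ => 1 := hB (Subsingleton.elim _ _)
    exact zero_ne_one (congrFun h1 0)
  subst hn
  exact Matrix.det_isEmpty

/-- the exponent can be computed in `E` -/
lemma schur_exp (κ : R ≃+* (I → C)) (h : IsSchur M T k e π γ) (hk : Odd k) (hM : M.NoMiddle)
    (hT : T.NoMiddle) {r : ℤ}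
    (hr : ∑ σ : Perm (Fin k), e σ * (oddLen σ * (M.N : E) ^ numCyc σ) = r * M.N) :
    RatioPow M T r := by
  obtain ⟨r', h1, h2⟩ := schur_cyc κ h hk hM hT
  rw [hr] at h1
  by_cases hN : M.N = 0
  · intro s c c' t t' hc hc' ht ht'
    obtain ⟨a, h3⟩ := h2 s c c' t t' hc hc' ht ht'
    refine ⟨a, ?_⟩
    have hc1 : c = 1 := Units.ext (period_zero hN hc)
    have hc1' : c' = 1 := Units.ext (period_zero hN hc')
    rw [h3, hc1, hc1', div_one, one_zpow, one_zpow]
  · have hN' : (M.N : E) ≠ 0 := by exact_mod_cast hN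
    have h3 := mul_right_cancel₀ hN' h1
    have h4 : r' = r := by exact_mod_cast h3
    rwa [← h4]

/-- exterior powers -/
theorem ext_main (κ : R ≃+* (I → C)) {l : ℕ} {e : Perm (Fin (2 * l + 1)) → E}
    {π : Matrix (Fin T.N) (Fin (2 * l + 1) → Fin M.N) E}
    {γ : Matrix (Fin (2 * l + 1) → Fin M.N) (Fin T.N) E} (h : IsSchur M T (2 * l + 1) e π γ)
    (he : ∀ σ, e σ = ((Perm.sign σ : ℤˣ) : ℤ) / ((2 * l + 1).factorial : E))
    (hM : M.NoMiddle) (hT : T.NoMiddle) :
    RatioPow M T ((-1) ^ l * ((M.dim 1 - 1).choose l : ℤ)) := by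
  refine schur_exp κ h (odd_two_mul_add_one l) hM hT ?_
  have h1 := congrArg (fun x : ℤ => (x : E)) (sum_oddLen_sign (M.dim 1) l)
  have hf : ((2 * l + 1).factorial : E) ≠ 0 := by exact_mod_cast (2 * l + 1).factorial_ne_zero
  have h2 : ∑ σ : Perm (Fin (2 * l + 1)), e σ * (oddLen σ * (M.N : E) ^ numCyc σ) =
      (∑ σ : Perm (Fin (2 * l + 1)), ((((Perm.sign σ : ℤˣ) : ℤ) : E)) *
        (oddLen σ * (2 * (M.dim 1 : E)) ^ numCyc σ)) / ((2 * l + 1).factorial : E) := by
    rw [Finset.sum_div]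
    refine Finset.sum_congr rfl fun σ _ => ?_
    rw [he, N_eq hM]
    push_cast
    ring
  simp only [Int.cast_sum, Int.cast_mul, Int.cast_pow, Int.cast_natCast, Int.cast_ofNat,
    Int.cast_neg, Int.cast_one] at h1
  rw [h2, h1, N_eq hM]
  push_cast
  field_simp

/-- symmetric powers -/
theorem sym_main (κ : R ≃+* (I → C)) {l : ℕ} {e : Perm (Fin (2 * l + 1)) → E}
    {π : Matrix (Fin T.N) (Fin (2 * l + 1) → Fin M.N) E}
    {γ : Matrix (Fin (2 * l + 1) → Fin M.N) (Fin T.N) E} (h : IsSchur M T (2 * l + 1) e π γ)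
    (he : ∀ σ, e σ = 1 / ((2 * l + 1).factorial : E))
    (hM : M.NoMiddle) (hT : T.NoMiddle) :
    RatioPow M T ((M.dim 1 + l).choose l : ℤ) := by
  refine schur_exp κ h (odd_two_mul_add_one l) hM hT ?_
  have h1 := congrArg (fun x : ℤ => (x : E)) (sum_oddLen (M.dim 1) l)
  have hf : ((2 * l + 1).factorial : E) ≠ 0 := by exact_mod_cast (2 * l + 1).factorial_ne_zero
  have h2 : ∑ σ : Perm (Fin (2 * l + 1)), e σ * (oddLen σ * (M.N : E) ^ numCyc σ) =
      (∑ σ : Perm (Fin (2 * l + 1)),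
        (oddLen σ * (2 * (M.dim 1 : E)) ^ numCyc σ)) / ((2 * l + 1).factorial : E) := by
    rw [Finset.sum_div]
    refine Finset.sum_congr rfl fun σ _ => ?_
    rw [he, N_eq hM]
    push_cast
    ring
  simp only [Int.cast_sum, Int.cast_mul, Int.cast_pow, Int.cast_natCast, Int.cast_ofNat] at h1
  rw [h2, h1, N_eq hM]
  push_cast
  field_simp

end PMot

end Pool.Agent.X33.DP
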