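import Pool.Agent.X33.DR.Trace
import Pool.Agent.X33.DR.Invol

/-!
# The trace of `S_e(J_M) J_T`
-/

set_option autoImplicit false
set_option linter.unusedSectionVars false

namespace Pool.Agent.X33.DP

open TensorProduct Module

section

variable {E K : Type} [Field E] [CommRing K] [Algebra E K]

lemma trace_mt {N : ℕ} (X : Module.End K (K ⊗[E] (Fin N → E))) :
    (mt E K N X).trace = LinearMap.trace K _ X := by
  change (LinearMap.toMatrix' ((phi E K (Fin N)).conj X)).trace = _
  rw [← LinearMap.trace_conj' X (phi E K (Fin N)),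
    LinearMap.trace_eq_matrix_trace K (Pi.basisFun K (Fin N)) ((phi E K (Fin N)).conj X),
    LinearMap.toMatrix_eq_toMatrix']

end

namespace PMot

variable {E K : Type} [Field E] [CommRing K] [Algebra E K] {M T : PMot E K} {k : ℕ}
  {e : Equiv.Perm (Fin k) → E} {π : Matrix (Fin T.N) (Fin k → Fin M.N) E}
  {γ : Matrix (Fin k → Fin M.N) (Fin T.N) E}

lemma trace_X (h : IsSchur M T k e π γ) :
    ∃ x : E, LinearMap.trace K _ (Th h M.toMot.J * T.toMot.J) = algebraMap E K x := by
  obtain ⟨v, t, hv⟩ := M.hodge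
  let s : (Fin k → Fin M.N) → ℤ := fun j => T.toMot.sg (∑ i, t (j i)) * ∏ i, M.toMot.sg (t (j i))
  let w : (Fin k → Fin M.N) → (Fin T.N → K) := fun j =>
    (π.map (algebraMap E K)).mulVec (tv fun i => v (j i))
  have hmem : ∀ l, v l ∈ M.H (t l) := fun l => by
    rw [hv]
    exact Submodule.subset_span ⟨l, rfl, rfl⟩
  have hmem' : ∀ l, (phi E K (Fin M.N)).symm (v l) ∈ M.toMot.H (t l) := fun l => ⟨_, hmem l, rfl⟩
  set X := Th h M.toMot.J * T.toMot.J with hX
  have hXw : ∀ j, X ((phi E K (Fin T.N)).symm (w j)) =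
      (s j) • ((phi E K (Fin T.N)).symm (w j)) := by
    intro j
    have hT : (phi E K (Fin T.N)).symm (w j) ∈ T.toMot.H (∑ i, t (j i)) :=
      ⟨_, h.hodge (fun i => t (j i)) _ (fun i => hmem (j i)), rfl⟩
    have hw : w j = (π.map (algebraMap E K)).mulVec
        (tv fun i => phi E K (Fin M.N) ((phi E K (Fin M.N)).symm (v (j i)))) := by
      simp only [LinearEquiv.apply_symm_apply]
      rfl
    have hJ : Th h M.toMot.J ((phi E K (Fin T.N)).symm (w j)) = (∏ i, M.toMot.sg (t (j i))) •
        ((phi E K (Fin T.N)).symm (w j)) := by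
      have h1 : ∀ i, phi E K (Fin M.N) (M.toMot.J ((phi E K (Fin M.N)).symm (v (j i)))) =
          M.toMot.sg (t (j i)) • phi E K (Fin M.N) ((phi E K (Fin M.N)).symm (v (j i))) := fun i => by
        rw [M.toMot.J_mem (hmem' (j i)), map_zsmul]
      rw [hw, Th_tv]
      simp only [h1]
      rw [tv_zsmul, Matrix.mulVec_smul, map_zsmul]
    rw [hX, Module.End.mul_apply, T.toMot.J_mem hT, map_zsmul, hJ, smul_smul]
  have hXw' : ∀ j, (mt E K T.N X).mulVec (w j) = ((s j : ℤ) : K) • w j := by
    intro j
    have h1 := mt_mulVec X ((phi E K (Fin T.N)).symm (w j))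
    rw [LinearEquiv.apply_symm_apply, hXw, map_zsmul, LinearEquiv.apply_symm_apply] at h1
    rw [h1, Int.cast_smul_eq_zsmul]
  let V : Matrix (Fin M.N) (Fin M.N) K := (Pi.basisFun K (Fin M.N)).toMatrix v
  let V' : Matrix (Fin M.N) (Fin M.N) K := v.toMatrix (Pi.basisFun K (Fin M.N))
  have hVV : V * V' = 1 := (Pi.basisFun K (Fin M.N)).toMatrix_mul_toMatrix_flip v
  have hVV' : V' * V = 1 := v.toMatrix_mul_toMatrix_flip (Pi.basisFun K (Fin M.N))
  have hA : mt E K T.N X * (π.map (algebraMap E K) * tens k V) =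
      (π.map (algebraMap E K) * tens k V) * Matrix.diagonal (fun j => ((s j : ℤ) : K)) := by
    have h1 : ∀ a j, (π.map (algebraMap E K) * tens k V) a j = w j a := fun a j => rfl
    ext a j
    rw [Matrix.mul_diagonal, h1, Matrix.mul_apply]
    simp only [h1]
    have h2 := congrFun (hXw' j) a
    rw [Pi.smul_apply, smul_eq_mul, mul_comm] at h2
    exact h2
  have hB : mt E K T.N X * π.map (algebraMap E K) =
      π.map (algebraMap E K) * tens k V * Matrix.diagonal (fun j => ((s j : ℤ) : K)) *
        tens k V' := by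
    rw [← hA, Matrix.mul_assoc, Matrix.mul_assoc, tens_mul, hVV, tens_one, Matrix.mul_one]
  refine ⟨∑ σ : Equiv.Perm (Fin k), e σ * ∑ j : Fin k → Fin M.N, if j ∘ σ = j then ((s j : ℤ) : E)
    else 0, ?_⟩
  rw [← trace_mt]
  calc (mt E K T.N X).trace
      = (mt E K T.N X * (π.map (algebraMap E K) * γ.map (algebraMap E K))).trace := by
        rw [proj_map h, Matrix.mul_one]
    _ = (π.map (algebraMap E K) * tens k V * Matrix.diagonal (fun j => ((s j : ℤ) : K)) *
        tens k V' * γ.map (algebraMap E K)).trace := by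
        rw [← Matrix.mul_assoc, hB]
    _ = ((π.map (algebraMap E K) * tens k V) * (Matrix.diagonal (fun j => ((s j : ℤ) : K)) *
        tens k V' * γ.map (algebraMap E K))).trace := by
        simp only [Matrix.mul_assoc]
    _ = ((Matrix.diagonal (fun j => ((s j : ℤ) : K)) * tens k V' * γ.map (algebraMap E K)) *
        (π.map (algebraMap E K) * tens k V)).trace := Matrix.trace_mul_comm _ _
    _ = (Matrix.diagonal (fun j => ((s j : ℤ) : K)) * (tens k V' *
        ((γ.map (algebraMap E K) * π.map (algebraMap E K)) * tens k V))).trace := by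
        simp only [Matrix.mul_assoc]
    _ = (Matrix.diagonal (fun j => ((s j : ℤ) : K)) *
        sym (Fin M.N) (fun σ => algebraMap E K (e σ))).trace := by
        rw [sect_map h, sym_comm _ (inv_tens V), ← Matrix.mul_assoc (tens k V'), tens_mul, hVV',
          tens_one, Matrix.one_mul]
    _ = _ := by
        rw [trace_diag_sym, map_sum]
        refine Finset.sum_congr rfl fun σ _ => ?_
        rw [map_mul, map_sum]
        congr 1
        refine Finset.sum_congr rfl fun j _ => ?_
        split_ifs
        · rw [map_intCast]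
        · rw [map_zero]

end PMot

end Pool.Agent.X33.DP
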