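import Pool.Agent.X33.DR.Schur

/-!
# Weights
-/

set_option autoImplicit false
set_option linter.unusedSectionVars false

namespace Pool.Agent.X33.DP

open TensorProduct Module

section aux

variable {E : Type} [Field E]

/-- the trace of a matrix that is diagonal in a basis -/
lemma trace_of_diag {N : ℕ} {κ : Type} [Fintype κ] (c : Basis κ E (Fin N → E))
    (X : Matrix (Fin N) (Fin N) E) (l : κ → E) (h : ∀ j, X.mulVec (c j) = l j • c j) :
    X.trace = ∑ j, l j := by
  classical
  have h1 : X.trace = LinearMap.trace E _ X.mulVecLin := by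
    rw [← Matrix.toLin'_apply', Matrix.trace_toLin'_eq]
  rw [h1, LinearMap.trace_eq_matrix_trace E c]
  have h2 : LinearMap.toMatrix c c X.mulVecLin = Matrix.diagonal l := by
    ext i j
    rw [LinearMap.toMatrix_apply, Matrix.mulVecLin_apply, h, map_smul, Finsupp.smul_apply,
      Basis.repr_self, Matrix.diagonal_apply, smul_eq_mul]
    by_cases hij : i = j
    · subst hij
      simp
    · rw [if_neg hij, Finsupp.single_eq_of_ne hij, mul_zero]
  rw [h2, Matrix.trace_diagonal]

/-- the determinant of an operator that is diagonal in a basis -/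
lemma det_of_diag {K V : Type} [CommRing K] [AddCommGroup V] [Module K V] {κ : Type} [Fintype κ]
    (c : Basis κ K V) (X : V →ₗ[K] V) (l : κ → K) (h : ∀ j, X (c j) = l j • c j) :
    LinearMap.det X = ∏ j, l j := by
  classical
  rw [← LinearMap.det_toMatrix c]
  have h2 : LinearMap.toMatrix c c X = Matrix.diagonal l := by
    ext i j
    rw [LinearMap.toMatrix_apply, h, map_smul, Finsupp.smul_apply,
      Basis.repr_self, Matrix.diagonal_apply, smul_eq_mul]
    by_cases hij : i = j
    · subst hij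
      simp
    · rw [if_neg hij, Finsupp.single_eq_of_ne hij, mul_zero]
  rw [h2, Matrix.det_diagonal]

/-- a basis contained in a spanning family -/
lemma exists_basis_of_span {V ι : Type} [AddCommGroup V] [Module E V] [FiniteDimensional E V]
    (w : ι → V) (hw : Submodule.span E (Set.range w) = ⊤) :
    ∃ (κ : Type) (_ : Fintype κ) (a : κ → ι) (c : Basis κ E V), ∀ j, c j = w (a j) := by
  obtain ⟨κ, a, -, hsp, hli⟩ := exists_linearIndependent' E w
  have hli' : Module.Finite E V := inferInstance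
  have hfin : Finite κ := hli.finite
  have : Fintype κ := Fintype.ofFinite κ
  refine ⟨κ, this, a, Basis.mk hli (by rw [hsp, hw]), fun j => ?_⟩
  rw [Basis.mk_apply]
  rfl

/-- the number of indices in the first summand -/
def ps {k n : ℕ} (s : Fin k → Fin n ⊕ Fin n) : ℕ := ∑ i, if (s i).isLeft then 1 else 0

/-- the number of indices in the second summand -/
def qs {k n : ℕ} (s : Fin k → Fin n ⊕ Fin n) : ℕ := ∑ i, if (s i).isLeft then 0 else 1

/-- the sign -/
def sg {k n : ℕ} (s : Fin k → Fin n ⊕ Fin n) : ℤˣ := ∏ i, Mot.sgn (s i)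

lemma prod_wt {K : Type} [CommRing K] {k n : ℕ} (s : Fin k → Fin n ⊕ Fin n) (c d : K) :
    ∏ i, (if (s i).isLeft then c else d) = c ^ ps s * d ^ qs s := by
  rw [ps, qs, ← Finset.prod_pow_eq_pow_sum, ← Finset.prod_pow_eq_pow_sum, ← Finset.prod_mul_distrib]
  refine Finset.prod_congr rfl fun i _ => ?_
  by_cases h : (s i).isLeft
  · simp [h]
  · simp [h]

lemma sum_sgn {k n : ℕ} (s : Fin k → Fin n ⊕ Fin n) :
    ∑ i, ((Mot.sgn (s i) : ℤˣ) : ℤ) = ps s - qs s := by
  rw [ps, qs, Nat.cast_sum, Nat.cast_sum, ← Finset.sum_sub_distrib]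
  refine Finset.sum_congr rfl fun i _ => ?_
  cases s i <;> simp [Mot.sgn]

end aux

namespace PMot

variable {E K : Type} [Field E] [CommRing K] [Algebra E K] [CharZero E] {M T : PMot E K} {k : ℕ}
  {e : Equiv.Perm (Fin k) → E} {π : Matrix (Fin T.N) (Fin k → Fin M.N) E}
  {γ : Matrix (Fin k → Fin M.N) (Fin T.N) E} {n : ℕ}

/-- the images of the tensors of basis vectors -/
noncomputable def wv (π : Matrix (Fin T.N) (Fin k → Fin M.N) E)
    (u : Basis (Fin n) E (M.toMot.eig 1)) (u' : Basis (Fin n) E (M.toMot.eig (-1)))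
    (s : Fin k → Fin n ⊕ Fin n) : Fin T.N → E :=
  π.mulVec (tv fun i => M.toMot.bB u u' (s i))

lemma span_wv (h : IsSchur M T k e π γ) (u : Basis (Fin n) E (M.toMot.eig 1))
    (u' : Basis (Fin n) E (M.toMot.eig (-1))) :
    Submodule.span E (Set.range (wv π u u')) = ⊤ := by
  rw [Submodule.eq_top_iff']
  intro x
  have h1 : (Submodule.span E (Set.range (wv π u u'))).mkQ ∘ₗ π.mulVecLin = 0 :=
    tv_ext (M.toMot.bB u u') fun j => by
      rw [LinearMap.zero_apply, LinearMap.comp_apply, Submodule.mkQ_apply,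
        Submodule.Quotient.mk_eq_zero]
      exact Submodule.subset_span ⟨j, rfl⟩
  have h2 := LinearMap.congr_fun h1 (γ.mulVec x)
  rw [LinearMap.zero_apply, LinearMap.comp_apply, Submodule.mkQ_apply,
    Submodule.Quotient.mk_eq_zero, Matrix.mulVecLin_apply, Matrix.mulVec_mulVec, h.proj,
    Matrix.one_mulVec] at h2
  exact h2

lemma F_wv (h : IsSchur M T k e π γ) (u : Basis (Fin n) E (M.toMot.eig 1))
    (u' : Basis (Fin n) E (M.toMot.eig (-1))) (s : Fin k → Fin n ⊕ Fin n) :
    T.F.mulVec (wv π u u' s) = ((sg s : ℤˣ) : ℤ) • wv π u u' s := by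
  have h1 : ∀ k, M.F.mulVec (M.toMot.bB u u' k) = ((Mot.sgn k : ℤˣ) : ℤ) • M.toMot.bB u u' k :=
    fun k => M.toMot.frob_bB u u' k
  rw [wv, Matrix.mulVec_mulVec, h.frob, ← Matrix.mulVec_mulVec, tens_mulVec]
  simp only [h1]
  rw [tv_zsmul, Matrix.mulVec_smul, sg, Units.coe_prod]

/-- the derivation of `T` -/
noncomputable def derT (M : PMot E K) (π : Matrix (Fin T.N) (Fin k → Fin M.N) E)
    (γ : Matrix (Fin k → Fin M.N) (Fin T.N) E) : Matrix (Fin T.N) (Fin T.N) E :=
  π * der k M.F * γ

lemma der_tv {ι : Type} [Fintype ι] [DecidableEq ι] (A : Matrix ι ι E) (x : Fin k → ι → E)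
    (l : Fin k → E) (hx : ∀ i, A.mulVec (x i) = l i • x i) :
    (der k A).mulVec (tv x) = (∑ i, l i) • tv x := by
  rw [der, Matrix.sum_mulVec, Finset.sum_smul]
  refine Finset.sum_congr rfl fun i _ => ?_
  rw [tq_mulVec]
  have h1 : (fun j => (Function.update (fun _ : Fin k => (1 : Matrix ι ι E)) i A j).mulVec (x j)) =
      fun j => (Function.update (fun _ : Fin k => (1 : E)) i (l i) j) • x j := by
    funext j
    by_cases hj : j = i
    · subst hj
      rw [Function.update_self, Function.update_self, hx]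
    · rw [Function.update_of_ne hj, Function.update_of_ne hj, Matrix.one_mulVec, one_smul]
  rw [h1, tv_smul, Finset.prod_update_of_mem (Finset.mem_univ i)]
  simp

lemma act_tv' (h : IsSchur M T k e π γ) {G : Matrix (Fin k → Fin M.N) (Fin k → Fin M.N) E}
    (hG : Inv G) (x : (Fin k → Fin M.N) → E) :
    (π * G * γ).mulVec (π.mulVec x) = π.mulVec (G.mulVec x) := by
  rw [Matrix.mulVec_mulVec, Matrix.mulVec_mulVec]
  congr 1
  calc _ = π * (G * (γ * π)) := by simp only [Matrix.mul_assoc]
    _ = π * (γ * π) * G := by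
      rw [h.sect, ← sym_comm _ hG]
      simp only [Matrix.mul_assoc]
    _ = _ := by
      rw [← Matrix.mul_assoc, h.proj, Matrix.one_mul]

lemma derT_wv (h : IsSchur M T k e π γ) (u : Basis (Fin n) E (M.toMot.eig 1))
    (u' : Basis (Fin n) E (M.toMot.eig (-1))) (s : Fin k → Fin n ⊕ Fin n) :
    (derT M π γ).mulVec (wv π u u' s) = (((ps s - qs s : ℤ)) : E) • wv π u u' s := by
  have h1 : ∀ k, M.F.mulVec (M.toMot.bB u u' k) =
      (((Mot.sgn k : ℤˣ) : ℤ) : E) • M.toMot.bB u u' k := fun k => by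
    rw [Int.cast_smul_eq_zsmul]
    exact M.toMot.frob_bB u u' k
  rw [derT, wv, act_tv' h (inv_der _), der_tv _ _ _ (fun i => h1 (s i)), Matrix.mulVec_smul,
    ← Int.cast_sum, sum_sgn]

lemma phi_wv (π : Matrix (Fin T.N) (Fin k → Fin M.N) E) (u : Basis (Fin n) E (M.toMot.eig 1))
    (u' : Basis (Fin n) E (M.toMot.eig (-1))) (s : Fin k → Fin n ⊕ Fin n) :
    phi E K (Fin T.N) (1 ⊗ₜ wv π u u' s) = (π.map (algebraMap E K)).mulVec
      (tv fun i => phi E K (Fin M.N) ((M.toMot.bB u u').baseChange K (s i))) := by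
  rw [phi_tmul]
  ext j
  simp only [wv, Matrix.mulVec, dotProduct, tv, Matrix.map_apply, Basis.baseChange_apply, phi_tmul,
    Algebra.smul_def, mul_one, map_sum, map_mul, map_prod]

lemma Th_wv (h : IsSchur M T k e π γ) (u : Basis (Fin n) E (M.toMot.eig 1))
    (u' : Basis (Fin n) E (M.toMot.eig (-1))) (s : Fin k → Fin n ⊕ Fin n) (c d : K) :
    Th h (L ((M.toMot.bB u u').baseChange K) (c • 1) (d • 1)) (1 ⊗ₜ wv π u u' s) =
      (c ^ ps s * d ^ qs s) • (1 ⊗ₜ wv π u u' s) := by
  have h1 : ∀ k, L ((M.toMot.bB u u').baseChange K) (c • 1) (d • 1)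
      ((M.toMot.bB u u').baseChange K k) =
      (if k.isLeft then c else d) • (M.toMot.bB u u').baseChange K k := by
    intro k
    rw [L, Matrix.toLin_self, Fintype.sum_sum_type]
    rcases k with i | i
    · simp [Matrix.one_apply]
    · simp [Matrix.one_apply]
  have h2 : (1 : K) ⊗ₜ[E] wv π u u' s = (phi E K (Fin T.N)).symm ((π.map (algebraMap E K)).mulVec
      (tv fun i => phi E K (Fin M.N) ((M.toMot.bB u u').baseChange K (s i)))) := by
    rw [← phi_wv, LinearEquiv.symm_apply_apply]
  rw [h2, Th_tv]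
  simp only [h1, map_smul]
  rw [tv_smul, Matrix.mulVec_smul, map_smul, prod_wt]

lemma F_comm (h : IsSchur M T k e π γ) (u : Basis (Fin n) E (M.toMot.eig 1))
    (u' : Basis (Fin n) E (M.toMot.eig (-1))) (g g' : Matrix (Fin n) (Fin n) K) :
    T.toMot.F * Th h (L ((M.toMot.bB u u').baseChange K) g g') =
      Th h (L ((M.toMot.bB u u').baseChange K) g g') * T.toMot.F := by
  rw [← Th_F h, ← map_mul, ← map_mul, M.toMot.F_bB u u', L_mul, L_mul]
  simp

/-- the weights of `T^+` -/
lemma exists_weights (h : IsSchur M T k e π γ) (u : Basis (Fin n) E (M.toMot.eig 1))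
    (u' : Basis (Fin n) E (M.toMot.eig (-1))) :
    ∃ α β : ℕ, (∀ c d : K, T.toMot.Dl (Th h (L ((M.toMot.bB u u').baseChange K) (c • 1) (d • 1))) =
      c ^ α * d ^ β) ∧ 2 * ((α : E) - β) = (derT M π γ).trace + (derT M π γ * T.F).trace := by
  obtain ⟨κ, _, a, c, hc⟩ := exists_basis_of_span _ (span_wv h u u')
  classical
  obtain ⟨t, ht⟩ := T.toMot.eig_basis c (fun j => sg (a j)) (fun j => by
    rw [hc]
    exact F_wv h u u' (a j)) (μ := {j // sg (a j) = 1}) 1 Subtype.val Subtype.val_injective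
    (fun j => by simp)
  refine ⟨∑ m : {j // sg (a j) = 1}, ps (a m), ∑ m : {j // sg (a j) = 1}, qs (a m), ?_, ?_⟩
  · intro x y
    rw [Mot.Dl, det_of_diag (t.baseChange K) _ (fun m => x ^ ps (a m) * y ^ qs (a m))]
    · rw [Finset.prod_mul_distrib, Finset.prod_pow_eq_pow_sum, Finset.prod_pow_eq_pow_sum]
    · intro m
      refine T.toMot.inc_inj 1 ?_
      rw [T.toMot.inc_res (c := 1) (fun z => by
        rw [Units.val_one, one_smul]
        exact LinearMap.congr_fun (F_comm h u u' _ _) z) (by rw [one_mul]), map_smul,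
        Basis.baseChange_apply]
      change Th h _ (1 ⊗ₜ (t m : T.toMot.B)) = _ • (1 ⊗ₜ (t m : T.toMot.B))
      rw [ht, hc]
      exact Th_wv h u u' _ x y
  · rw [trace_of_diag c (derT M π γ) (fun j => (((ps (a j) - qs (a j) : ℤ)) : E)) (fun j => by
      rw [hc, derT_wv h]),
      trace_of_diag c (derT M π γ * T.F)
        (fun j => (((ps (a j) - qs (a j) : ℤ)) : E) * (((sg (a j) : ℤˣ) : ℤ) : E)) (fun j => by
      rw [hc, ← Matrix.mulVec_mulVec, F_wv h, ← Int.cast_smul_eq_zsmul E, Matrix.mulVec_smul,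
        derT_wv h, smul_smul, mul_comm])]
    rw [← Finset.sum_add_distrib]
    have h1 : ∀ j, (((ps (a j) - qs (a j) : ℤ)) : E) +
        (((ps (a j) - qs (a j) : ℤ)) : E) * (((sg (a j) : ℤˣ) : ℤ) : E) =
        if sg (a j) = 1 then 2 * (((ps (a j) - qs (a j) : ℤ)) : E) else 0 := by
      intro j
      rcases Int.units_eq_one_or (sg (a j)) with h2 | h2
      · rw [h2, if_pos rfl]
        push_cast
        ring
      · rw [h2, if_neg (by decide)]
        push_cast
        ring
    rw [Finset.sum_congr rfl fun j _ => h1 j, ← Finset.sum_filter, ← Finset.mul_sum]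
    congr 1
    rw [← Finset.sum_subtype_eq_sum_filter]
    push_cast
    rw [← Finset.sum_sub_distrib]
    refine Finset.sum_congr ?_ fun _ _ => rfl
    ext j
    simp

lemma tq_update_neg {ι : Type} [DecidableEq ι] (A : Fin k → Matrix ι ι E) (B : Matrix ι ι E)
    (i : Fin k) : tq (Function.update A i (-B)) = -tq (Function.update A i B) := by
  ext s t
  rw [Matrix.neg_apply, tq, tq, Matrix.of_apply, Matrix.of_apply,
    ← Finset.mul_prod_erase _ _ (Finset.mem_univ i), ← Finset.mul_prod_erase _ _ (Finset.mem_univ i),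
    Function.update_self, Function.update_self, Matrix.neg_apply, neg_mul]
  congr 2
  refine Finset.prod_congr rfl fun j hj => ?_
  rw [Function.update_of_ne (Finset.ne_of_mem_erase hj),
    Function.update_of_ne (Finset.ne_of_mem_erase hj)]

lemma tens_der {ι : Type} [Fintype ι] [DecidableEq ι] {A F : Matrix ι ι E} (h : A * F = -(F * A)) :
    tens k A * der k F = -(der k F * tens k A) := by
  rw [der, Finset.mul_sum, Finset.sum_mul, ← Finset.sum_neg_distrib]
  refine Finset.sum_congr rfl fun i _ => ?_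
  rw [tens, tq_mul, tq_mul]
  have h1 : (fun j => A * Function.update (fun _ : Fin k => (1 : Matrix ι ι E)) i F j) =
      Function.update (fun _ => A) i (-(F * A)) := by
    funext j
    by_cases hj : j = i
    · subst hj
      rw [Function.update_self, Function.update_self, h]
    · rw [Function.update_of_ne hj, Function.update_of_ne hj, mul_one]
  have h2 : (fun j => Function.update (fun _ : Fin k => (1 : Matrix ι ι E)) i F j * A) =
      Function.update (fun _ => A) i (F * A) := by
    funext j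
    by_cases hj : j = i
    · subst hj
      rw [Function.update_self, Function.update_self]
    · rw [Function.update_of_ne hj, Function.update_of_ne hj, one_mul]
  rw [h1, h2, tq_update_neg]

lemma act_mul' (h : IsSchur M T k e π γ) {G H : Matrix (Fin k → Fin M.N) (Fin k → Fin M.N) E}
    (hG : Inv G) : (π * G * γ) * (π * H * γ) = π * (G * H) * γ := by
  calc _ = π * (G * (γ * π)) * H * γ := by simp only [Matrix.mul_assoc]
    _ = π * (γ * π) * G * H * γ := by
      rw [h.sect, ← sym_comm _ hG]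
      simp only [Matrix.mul_assoc]
    _ = _ := by
      rw [← Matrix.mul_assoc π γ, h.proj, Matrix.one_mul]
      simp only [Matrix.mul_assoc]

/-- the matrix of the rational involution -/
lemma exists_inv (u : Basis (Fin n) E (M.toMot.eig 1)) (u' : Basis (Fin n) E (M.toMot.eig (-1))) :
    ∃ A : Matrix (Fin M.N) (Fin M.N) E, A * A = 1 ∧ A * M.F = -(M.F * A) := by
  let g : (Fin M.N → E) →ₗ[E] (Fin M.N → E) := Mot.j0 u u'
  have hg : (LinearMap.toMatrix' g).mulVecLin = g := by
    rw [← Matrix.toLin'_apply', Matrix.toLin'_toMatrix']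
  have hg' : ∀ x, (LinearMap.toMatrix' g).mulVec x = g x := fun x => LinearMap.congr_fun hg x
  have h1 : g ∘ₗ g = LinearMap.id := by
    refine (M.toMot.bB u u').ext fun j => ?_
    change Mot.j0 u u' (Mot.j0 u u' _) = _
    rcases j with i | i
    · rw [Mot.j0_inl, Mot.j0_inr]
      rfl
    · rw [Mot.j0_inr, Mot.j0_inl]
      rfl
  have h2 : g ∘ₗ M.F.mulVecLin = -(M.F.mulVecLin ∘ₗ g) := by
    refine (M.toMot.bB u u').ext fun j => ?_
    change Mot.j0 u u' (M.toMot.frob _) = -(M.toMot.frob (Mot.j0 u u' _))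
    rw [M.toMot.frob_bB, map_zsmul]
    rcases j with i | i
    · rw [Mot.j0_inl, M.toMot.frob_bB]
      simp [Mot.sgn]
    · rw [Mot.j0_inr, M.toMot.frob_bB]
      simp [Mot.sgn]
  refine ⟨LinearMap.toMatrix' g, ?_, ?_⟩
  · rw [← LinearMap.toMatrix'_comp, h1, LinearMap.toMatrix'_id]
  · have h3 : LinearMap.toMatrix' M.F.mulVecLin = M.F := by
      rw [← Matrix.toLin'_apply', LinearMap.toMatrix'_toLin']
    have h4 := congrArg LinearMap.toMatrix' h2
    rw [map_neg, LinearMap.toMatrix'_comp, LinearMap.toMatrix'_comp, h3] at h4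
    exact h4

lemma trace_derT (h : IsSchur M T k e π γ) (u : Basis (Fin n) E (M.toMot.eig 1))
    (u' : Basis (Fin n) E (M.toMot.eig (-1))) : (derT M π γ).trace = 0 := by
  obtain ⟨A, hA, hAF⟩ := exists_inv u u'
  set Z := π * tens k A * γ with hZ
  have h1 : Z * Z = 1 := by
    rw [hZ, act_mul' h (inv_tens _), tens_mul, hA, tens_one, Matrix.mul_one, h.proj]
  have h2 : Z * derT M π γ = -(derT M π γ * Z) := by
    rw [hZ, derT, act_mul' h (inv_tens _), act_mul' h (inv_der _), tens_der hAF, Matrix.mul_neg,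
      Matrix.neg_mul]
  have h3 : (derT M π γ).trace = -(derT M π γ).trace := by
    calc (derT M π γ).trace = (Z * (Z * derT M π γ)).trace := by
          rw [← Matrix.mul_assoc, h1, Matrix.one_mul]
      _ = ((Z * derT M π γ) * Z).trace := Matrix.trace_mul_comm _ _
      _ = -(derT M π γ).trace := by
        rw [h2, Matrix.neg_mul, Matrix.trace_neg, Matrix.mul_assoc, h1, Matrix.mul_one]
  have h4 : (2 : E) * (derT M π γ).trace = 0 := by linear_combination h3
  exact (mul_eq_zero.1 h4).resolve_left two_ne_zero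

end PMot

end Pool.Agent.X33.DP
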